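import Pool.Agent.H38.LR.T3997.Q120.TD.Basic

/-!
# Moderate deviations in Cramér's model
-/

set_option autoImplicit false

namespace Pool.Agent.Q120.TD

open Finset MeasureTheory Filter Pool.Agent.Q120.ET Pool.Agent.Q120.MF Pool.Agent.Q120.AD
open scoped Topology

/-- The expected number of elements. -/
noncomputable def mu (W : Finset ℕ) : ℝ := ∑ n ∈ W, 1 / Real.log (n : ℝ)

theorem mu_nonneg {W : Finset ℕ} : 0 ≤ mu W := sum_nonneg (fun n _ => by
  have := Real.log_natCast_nonneg n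
  positivity)

theorem inv_log_mem {n : ℕ} (hn : 3 ≤ n) : 0 < 1 / Real.log (n : ℝ) ∧ 1 / Real.log (n : ℝ) < 1 := by
  have h1 := one_lt_log hn
  exact ⟨by positivity, by rw [div_lt_one (by linarith)]; exact h1⟩

theorem sinh_up {η : ℝ} (hη : 0 ≤ η) : (1 + η) * Real.log (1 + η) ≤ η + η ^ 2 / 2 := by
  obtain ⟨y, hy⟩ : ∃ y : ℝ, y = Real.log (1 + η) := ⟨_, rfl⟩
  have hy0 : 0 ≤ y := by rw [hy]; exact Real.log_nonneg (by linarith)
  have h1 := Real.self_le_sinh_iff.2 hy0
  rw [Real.sinh_eq, Real.exp_neg, hy, Real.exp_log (by linarith)] at h1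
  have h2 : (1 + η - (1 + η)⁻¹) / 2 * (1 + η) = η + η ^ 2 / 2 := by
    field_simp
    ring
  rw [← h2]
  nlinarith

theorem sinh_down {η : ℝ} (hη : 0 ≤ η) (hη1 : η < 1) : η ^ 2 / 2 ≤ (1 - η) * Real.log (1 - η) + η := by
  obtain ⟨y, hy⟩ : ∃ y : ℝ, y = -Real.log (1 - η) := ⟨_, rfl⟩
  have hy0 : 0 ≤ y := by
    rw [hy]
    have := Real.log_nonpos (show 0 ≤ 1 - η by linarith) (by linarith)
    linarith
  have h1 := Real.self_le_sinh_iff.2 hy0
  rw [Real.sinh_eq, hy, neg_neg, Real.exp_log (by linarith), Real.exp_neg, Real.exp_log (by linarith)] at h1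
  have h3 : 1 - η ≠ 0 := by linarith
  have h2 : ((1 - η)⁻¹ - (1 - η)) / 2 * (1 - η) = η - η ^ 2 / 2 := by
    field_simp
    ring
  nlinarith

theorem neg_log_ge {η : ℝ} (hη : 0 ≤ η) (hη1 : η < 1) : η + η ^ 2 / 2 ≤ -Real.log (1 - η) := by
  have h1 := Real.hasSum_pow_div_log_of_abs_lt_one (x := η) (by rw [abs_of_nonneg hη]; exact hη1)
  have h2 := sum_le_hasSum (range 2) (fun i _ => by positivity) h1
  rw [sum_range_succ, sum_range_succ, sum_range_zero] at h2
  refine le_trans (le_of_eq ?_) h2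
  norm_num

theorem one_sub_ge {x : ℝ} (h0 : 0 ≤ x) (h1 : x ≤ 1 / 2) : Real.exp (-(x + 2 * x ^ 2)) ≤ 1 - x := by
  rw [← Real.le_log_iff_exp_le (by linarith)]
  have h7 := Real.one_sub_inv_le_log_of_pos (show 0 < 1 - x by linarith)
  refine le_trans ?_ h7
  have h8 : (1 - x)⁻¹ ≤ 1 + (x + 2 * x ^ 2) := by
    rw [inv_le_iff_one_le_mul₀ (by linarith)]
    nlinarith [mul_nonneg h0 (show 0 ≤ 1 - 2 * x by linarith), mul_nonneg (mul_nonneg h0 h0) (show 0 ≤ 1 - 2 * x by linarith)]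
  linarith

theorem one_add_ge {x : ℝ} (h0 : 0 ≤ x) : Real.exp (x - x ^ 2 / 2) ≤ 1 + x := by
  rw [← Real.le_log_iff_exp_le (by linarith)]
  have h1 := Real.le_log_one_add_of_nonneg h0
  refine le_trans ?_ h1
  rw [le_div_iff₀ (by linarith)]
  nlinarith [pow_nonneg h0 3]

theorem den_eq (s : ℝ) (n : ℕ) :
    1 / Real.log (n : ℝ) * s + (1 - 1 / Real.log n) = 1 + 1 / Real.log n * (s - 1) := by ring

/-- **Moderate deviations, upwards.** -/
theorem dev_up {W : Finset ℕ} (hW : ∀ n ∈ W, 3 ≤ n) {δ η : ℝ} (hδ : ∀ n ∈ W, 1 / Real.log (n : ℝ) ≤ δ)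
    (hδ1 : δ ≤ 1 / 2) (hη : 0 < η) (hη1 : η ≤ 1) (hμ : 0 < mu W) :
    1 / 2 * Real.exp (-(η ^ 2 / 2 * (1 + δ) * mu W) - 2 * η * √(mu W)) ≤
      ∑ T ∈ W.powerset with (1 + η) * (1 - η * δ) * mu W - 2 * √(mu W) ≤ (T.card : ℝ), cramerOn W T := by
  have hsq : 0 < √(mu W) := Real.sqrt_pos.2 hμ
  have hs1 : 1 ≤ 1 + η := by linarith
  have hδ0 : 0 ≤ δ := by
    by_contra hcon
    push Not at hcon
    have : mu W ≤ 0 := sum_nonpos (fun n hn => by
      have := (inv_log_mem (hW n hn)).1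
      have := hδ n hn
      linarith)
    linarith
  have htp : ∀ n ∈ W, tp (1 + η) n ≤ (1 + η) * (1 / Real.log n) ∧
      (1 + η) * (1 - η * δ) * (1 / Real.log n) ≤ tp (1 + η) n := by
    intro n hn
    obtain ⟨p0, p1⟩ := inv_log_mem (hW n hn)
    have hp := hδ n hn
    unfold tp
    rw [den_eq]
    obtain ⟨p, hpd⟩ : ∃ p : ℝ, p = 1 / Real.log (n : ℝ) := ⟨_, rfl⟩
    rw [← hpd] at p0 p1 hp ⊢
    have hden : 0 < 1 + p * (1 + η - 1) := by
      have : 0 < p * (1 + η - 1) := mul_pos p0 (by linarith)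
      linarith
    constructor
    · rw [div_le_iff₀ hden]
      have : 0 < p * (1 + η - 1) := mul_pos p0 (by linarith)
      nlinarith [mul_pos p0 (show 0 < 1 + η by linarith)]
    · rw [le_div_iff₀ hden]
      have h1 : (1 - η * δ) * (1 + p * η) ≤ 1 := by
        have h2 : η * p ≤ η * δ := mul_le_mul_of_nonneg_left hp hη.le
        nlinarith [mul_nonneg (mul_nonneg hη.le hδ0) (mul_nonneg p0.le hη.le)]
      have h2 : (1 + η) * (1 - η * δ) * p * (1 + p * (1 + η - 1)) = ((1 + η) * p) * ((1 - η * δ) * (1 + p * η)) := by ring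
      rw [h2]
      calc ((1 + η) * p) * ((1 - η * δ) * (1 + p * η)) ≤ ((1 + η) * p) * 1 :=
            mul_le_mul_of_nonneg_left h1 (by positivity)
        _ = p * (1 + η) := by ring
  have htm1 : tm (1 + η) W ≤ (1 + η) * mu W := by
    unfold tm mu
    rw [mul_sum]
    exact sum_le_sum (fun n hn => (htp n hn).1)
  have htm2 : (1 + η) * (1 - η * δ) * mu W ≤ tm (1 + η) W := by
    unfold tm mu
    rw [mul_sum]
    exact sum_le_sum (fun n hn => (htp n hn).2)
  have hsq2 : √(mu W) ^ 2 = mu W := Real.sq_sqrt hμ.le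
  have h1 := tilt_up hW hs1 (t := 2 * √(mu W)) (by positivity) (by nlinarith)
  have hz : Real.exp (η * mu W - η ^ 2 / 2 * δ * mu W) ≤ tz (1 + η) W := by
    have h2 : Real.exp (η * mu W - η ^ 2 / 2 * δ * mu W) = ∏ n ∈ W, Real.exp (η * (1 / Real.log n) - η ^ 2 / 2 * δ * (1 / Real.log (n : ℝ))) := by
      rw [← Real.exp_sum, sum_sub_distrib, ← mul_sum, ← mul_sum]
      rfl
    rw [h2]
    unfold tz
    apply Finset.prod_le_prod
    · intro n _
      exact (Real.exp_pos _).le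
    · intro n hn
      obtain ⟨p0, p1⟩ := inv_log_mem (hW n hn)
      have hp := hδ n hn
      rw [den_eq]
      obtain ⟨p, hpd⟩ : ∃ p : ℝ, p = 1 / Real.log (n : ℝ) := ⟨_, rfl⟩
      rw [← hpd] at p0 p1 hp ⊢
      have h3 := one_add_ge (show 0 ≤ p * η by positivity)
      have h4 : 1 + p * (1 + η - 1) = 1 + p * η := by ring
      rw [h4]
      refine le_trans ?_ h3
      rw [Real.exp_le_exp]
      have h5 : p ^ 2 ≤ δ * p := by nlinarith
      have h6 : η ^ 2 / 2 * p ^ 2 ≤ η ^ 2 / 2 * (δ * p) := mul_le_mul_of_nonneg_left h5 (by positivity)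
      nlinarith
  have hs : Real.exp (-((η + η ^ 2 / 2) * mu W) - 2 * η * √(mu W)) ≤
      (1 + η) ^ (-(tm (1 + η) W + 2 * √(mu W))) := by
    rw [Real.rpow_def_of_pos (by linarith), Real.exp_le_exp]
    have h2 := sinh_up hη.le
    have h3 : Real.log (1 + η) ≤ η := by
      have := Real.log_le_sub_one_of_pos (show 0 < 1 + η by linarith)
      linarith
    have h4 : 0 ≤ Real.log (1 + η) := Real.log_nonneg (by linarith)
    have h5 : Real.log (1 + η) * tm (1 + η) W ≤ Real.log (1 + η) * ((1 + η) * mu W) := mul_le_mul_of_nonneg_left htm1 h4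
    have h6 : Real.log (1 + η) * ((1 + η) * mu W) ≤ (η + η ^ 2 / 2) * mu W := by
      have := mul_le_mul_of_nonneg_right h2 hμ.le
      linarith
    have h7 : Real.log (1 + η) * (2 * √(mu W)) ≤ η * (2 * √(mu W)) := mul_le_mul_of_nonneg_right h3 (by positivity)
    nlinarith
  have h2 : 1 / 2 * Real.exp (-(η ^ 2 / 2 * (1 + δ) * mu W) - 2 * η * √(mu W)) ≤
      tz (1 + η) W / 2 * (1 + η) ^ (-(tm (1 + η) W + 2 * √(mu W))) := by
    have h3 : 1 / 2 * Real.exp (-(η ^ 2 / 2 * (1 + δ) * mu W) - 2 * η * √(mu W)) =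
        Real.exp (η * mu W - η ^ 2 / 2 * δ * mu W) / 2 * Real.exp (-((η + η ^ 2 / 2) * mu W) - 2 * η * √(mu W)) := by
      have h9 : ∀ a b : ℝ, Real.exp a / 2 * Real.exp b = 1 / 2 * Real.exp (a + b) := fun a b => by
        rw [Real.exp_add]
        ring
      rw [h9]
      congr 2
      ring
    rw [h3]
    apply mul_le_mul (by linarith) hs (Real.exp_pos _).le
    have : 0 < tz (1 + η) W := lt_of_lt_of_le (Real.exp_pos _) hz
    positivity
  refine h2.trans (h1.trans ?_)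
  refine sum_le_sum_of_subset_of_nonneg ?_ ?_
  · intro T hT
    rw [mem_filter] at hT ⊢
    exact ⟨hT.1, by linarith [hT.2]⟩
  · intro T hT _
    rw [mem_filter, mem_powerset] at hT
    exact cramerOn_nonneg hW hT.1

/-- **Moderate deviations, downwards.** -/
theorem dev_down {W : Finset ℕ} (hW : ∀ n ∈ W, 3 ≤ n) {δ η : ℝ} (hδ : ∀ n ∈ W, 1 / Real.log (n : ℝ) ≤ δ)
    (hδ1 : δ ≤ 1 / 2) (hη : 0 < η) (hη1 : η ≤ 1 / 2) (hμ : 16 ≤ mu W) :
    1 / 2 * Real.exp (-(η ^ 2 / 2 * (1 + 4 * δ + η) * mu W) - 4 * η * √(mu W)) ≤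
      ∑ T ∈ W.powerset with (T.card : ℝ) ≤ (1 - η) * (1 + 2 * η * δ) * mu W + 2 * √(mu W), cramerOn W T := by
  have hμ0 : 0 < mu W := by linarith
  have hsq : 0 < √(mu W) := Real.sqrt_pos.2 hμ0
  have hsq2 : √(mu W) ^ 2 = mu W := Real.sq_sqrt hμ0.le
  have hsq4 : 4 ≤ √(mu W) := Real.le_sqrt_of_sq_le (by norm_num; exact hμ)
  have hδ0 : 0 ≤ δ := by
    by_contra hcon
    push Not at hcon
    have : mu W ≤ 0 := sum_nonpos (fun n hn => by
      have := (inv_log_mem (hW n hn)).1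
      have := hδ n hn
      linarith)
    linarith
  have htp : ∀ n ∈ W, tp (1 - η) n ≤ (1 - η) * (1 + 2 * η * δ) * (1 / Real.log n) ∧
      (1 - η) * (1 / Real.log n) ≤ tp (1 - η) n := by
    intro n hn
    obtain ⟨p0, p1⟩ := inv_log_mem (hW n hn)
    have hp := hδ n hn
    unfold tp
    rw [den_eq]
    obtain ⟨p, hpd⟩ : ∃ p : ℝ, p = 1 / Real.log (n : ℝ) := ⟨_, rfl⟩
    rw [← hpd] at p0 p1 hp ⊢
    have e1 : 1 + p * (1 - η - 1) = 1 - p * η := by ring
    rw [e1]
    have hpη : p * η ≤ 1 / 4 := by nlinarith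
    have hpη0 : 0 < p * η := mul_pos p0 hη
    have hden : 0 < 1 - p * η := by linarith
    constructor
    · rw [div_le_iff₀ hden]
      have h1 : 1 ≤ (1 + 2 * η * δ) * (1 - p * η) := by
        have h2 : η * p ≤ η * δ := mul_le_mul_of_nonneg_left hp hη.le
        nlinarith [mul_nonneg (mul_nonneg hη.le hδ0) hpη0.le]
      have h2 : (1 - η) * (1 + 2 * η * δ) * p * (1 - p * η) = ((1 - η) * p) * ((1 + 2 * η * δ) * (1 - p * η)) := by ring
      rw [h2]
      calc p * (1 - η) = ((1 - η) * p) * 1 := by ring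
        _ ≤ ((1 - η) * p) * ((1 + 2 * η * δ) * (1 - p * η)) :=
            mul_le_mul_of_nonneg_left h1 (mul_nonneg (by linarith) p0.le)
    · rw [le_div_iff₀ hden]
      nlinarith [mul_nonneg (show 0 ≤ 1 - η by linarith) p0.le]
  have htm1 : tm (1 - η) W ≤ (1 - η) * (1 + 2 * η * δ) * mu W := by
    unfold tm mu
    rw [mul_sum]
    exact sum_le_sum (fun n hn => (htp n hn).1)
  have htm2 : (1 - η) * mu W ≤ tm (1 - η) W := by
    unfold tm mu
    rw [mul_sum]
    exact sum_le_sum (fun n hn => (htp n hn).2)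
  have hle1 : (1 - η) * (1 + 2 * η * δ) ≤ 1 := by nlinarith [mul_nonneg hη.le hδ0]
  have h1 := tilt_down hW (show 0 < 1 - η by linarith) (by linarith) (t := 2 * √(mu W)) (by positivity) (by nlinarith)
  have hz : Real.exp (-(η * mu W) - 2 * η ^ 2 * δ * mu W) ≤ tz (1 - η) W := by
    have h2 : Real.exp (-(η * mu W) - 2 * η ^ 2 * δ * mu W) =
        ∏ n ∈ W, Real.exp (-(η * (1 / Real.log n)) - 2 * η ^ 2 * δ * (1 / Real.log (n : ℝ))) := by
      rw [← Real.exp_sum, sum_sub_distrib, sum_neg_distrib, ← mul_sum, ← mul_sum]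
      rfl
    rw [h2]
    unfold tz
    apply Finset.prod_le_prod
    · intro n _
      exact (Real.exp_pos _).le
    · intro n hn
      obtain ⟨p0, p1⟩ := inv_log_mem (hW n hn)
      have hp := hδ n hn
      rw [den_eq]
      obtain ⟨p, hpd⟩ : ∃ p : ℝ, p = 1 / Real.log (n : ℝ) := ⟨_, rfl⟩
      rw [← hpd] at p0 p1 hp ⊢
      have h3 := one_sub_ge (show 0 ≤ p * η by positivity) (by nlinarith)
      have h4 : 1 + p * (1 - η - 1) = 1 - p * η := by ring
      rw [h4]
      refine le_trans ?_ h3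
      rw [Real.exp_le_exp]
      have h5 : p ^ 2 ≤ δ * p := by nlinarith
      have h6 : 2 * η ^ 2 * p ^ 2 ≤ 2 * η ^ 2 * (δ * p) := mul_le_mul_of_nonneg_left h5 (by positivity)
      nlinarith
  have hs : Real.exp ((η + η ^ 2 / 2) * ((1 - η) * mu W - 2 * √(mu W))) ≤
      (1 - η) ^ (-(tm (1 - η) W - 2 * √(mu W))) := by
    rw [Real.rpow_def_of_pos (by linarith), Real.exp_le_exp]
    have h2 := neg_log_ge hη.le (show η < 1 by linarith)
    have h3 : 0 ≤ (1 - η) * mu W - 2 * √(mu W) := by nlinarith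
    have h4 : (η + η ^ 2 / 2) * ((1 - η) * mu W - 2 * √(mu W)) ≤ -Real.log (1 - η) * ((1 - η) * mu W - 2 * √(mu W)) :=
      mul_le_mul_of_nonneg_right h2 h3
    have h5 : -Real.log (1 - η) * ((1 - η) * mu W - 2 * √(mu W)) ≤ -Real.log (1 - η) * (tm (1 - η) W - 2 * √(mu W)) := by
      apply mul_le_mul_of_nonneg_left (by linarith)
      have : 0 ≤ η + η ^ 2 / 2 := by positivity
      linarith
    linarith
  have h2 : 1 / 2 * Real.exp (-(η ^ 2 / 2 * (1 + 4 * δ + η) * mu W) - 4 * η * √(mu W)) ≤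
      tz (1 - η) W / 2 * (1 - η) ^ (-(tm (1 - η) W - 2 * √(mu W))) := by
    have h3 : 1 / 2 * Real.exp (-(η ^ 2 / 2 * (1 + 4 * δ + η) * mu W) - 4 * η * √(mu W)) ≤
        Real.exp (-(η * mu W) - 2 * η ^ 2 * δ * mu W) / 2 *
          Real.exp ((η + η ^ 2 / 2) * ((1 - η) * mu W - 2 * √(mu W))) := by
      have h9 : ∀ a b : ℝ, Real.exp a / 2 * Real.exp b = 1 / 2 * Real.exp (a + b) := fun a b => by
        rw [Real.exp_add]
        ring
      rw [h9]
      apply mul_le_mul_of_nonneg_left _ (by norm_num)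
      rw [Real.exp_le_exp]
      have h4 : (η + η ^ 2 / 2) * (2 * √(mu W)) ≤ 4 * η * √(mu W) := by nlinarith [mul_pos hη hsq]
      nlinarith
    refine h3.trans ?_
    apply mul_le_mul (by linarith) hs (Real.exp_pos _).le
    have : 0 < tz (1 - η) W := lt_of_lt_of_le (Real.exp_pos _) hz
    positivity
  refine h2.trans (h1.trans ?_)
  refine sum_le_sum_of_subset_of_nonneg ?_ ?_
  · intro T hT
    rw [mem_filter] at hT ⊢
    exact ⟨hT.1, by linarith [hT.2]⟩
  · intro T hT _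
    rw [mem_filter, mem_powerset] at hT
    exact cramerOn_nonneg hW hT.1

/-- Upper bound for the upper tail. -/
theorem tail_up {W : Finset ℕ} (hW : ∀ n ∈ W, 3 ≤ n) {η : ℝ} (hη : 0 < η) (hη1 : η ≤ 1) :
    ∑ T ∈ W.powerset with (1 + η) * mu W < (T.card : ℝ), cramerOn W T ≤
      2 * Real.exp (-(η ^ 2 / 2 * (1 - η / 2) * mu W)) := by
  obtain ⟨m, hm⟩ : ∃ m : ℕ, m = ⌊(1 + η) * mu W⌋₊ := ⟨_, rfl⟩
  have hμ := mu_nonneg (W := W)
  have h1 := upper_tail hW (show 1 ≤ 1 + η by linarith) m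
  have h2 : ∑ T ∈ W.powerset with (1 + η) * mu W < (T.card : ℝ), cramerOn W T ≤
      ∑ T ∈ W.powerset with ¬ T.card ≤ m, cramerOn W T := by
    refine sum_le_sum_of_subset_of_nonneg ?_ ?_
    · intro T hT
      rw [mem_filter] at hT ⊢
      refine ⟨hT.1, fun hcon => ?_⟩
      have h3 : (T.card : ℝ) ≤ m := by exact_mod_cast hcon
      have h4 : (m : ℝ) ≤ (1 + η) * mu W := by rw [hm]; exact Nat.floor_le (by positivity)
      linarith [hT.2]
    · intro T hT _
      rw [mem_filter, mem_powerset] at hT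
      exact cramerOn_nonneg hW hT.1
  refine h2.trans (h1.trans ?_)
  have h3 : (1 / (1 + η)) ^ m ≤ (1 + η) * Real.exp (-((1 + η) * mu W * Real.log (1 + η))) := by
    have h4 : (1 + η) * mu W < m + 1 := by rw [hm]; exact Nat.lt_floor_add_one _
    have h5 : 1 / (1 + η) = Real.exp (-Real.log (1 + η)) := by rw [Real.exp_neg, Real.exp_log (by linarith), one_div]
    have h6 : (1 + η) * Real.exp (-((1 + η) * mu W * Real.log (1 + η))) =
        Real.exp (Real.log (1 + η) - (1 + η) * mu W * Real.log (1 + η)) := by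
      rw [sub_eq_add_neg, Real.exp_add, Real.exp_log (by linarith)]
    rw [h5, h6, ← Real.exp_nat_mul, Real.exp_le_exp]
    have h7 : 0 < Real.log (1 + η) := Real.log_pos (by linarith)
    nlinarith
  have h4 : Real.exp (-((1 - (1 + η)) * ∑ n ∈ W, 1 / Real.log (n : ℝ))) = Real.exp (η * mu W) := by
    congr 1
    unfold mu
    ring
  rw [h4]
  calc (1 / (1 + η)) ^ m * Real.exp (η * mu W) ≤
        (1 + η) * Real.exp (-((1 + η) * mu W * Real.log (1 + η))) * Real.exp (η * mu W) :=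
        mul_le_mul_of_nonneg_right h3 (Real.exp_pos _).le
    _ = (1 + η) * Real.exp (-(((1 + η) * Real.log (1 + η) - η) * mu W)) := by
        rw [mul_assoc, ← Real.exp_add]
        congr 2
        ring
    _ ≤ 2 * Real.exp (-(η ^ 2 / 2 * (1 - η / 2) * mu W)) := by
        apply mul_le_mul (by linarith) _ (Real.exp_pos _).le (by norm_num)
        rw [Real.exp_le_exp]
        have h5 := Real.le_log_one_add_of_nonneg hη.le
        have h6 : η ^ 2 / 2 * (1 - η / 2) ≤ (1 + η) * Real.log (1 + η) - η := by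
          have h7 : (1 + η) * (2 * η / (η + 2)) ≤ (1 + η) * Real.log (1 + η) := mul_le_mul_of_nonneg_left h5 (by linarith)
          have h8 : η ^ 2 / 2 * (1 - η / 2) + η ≤ (1 + η) * (2 * η / (η + 2)) := by
            rw [← mul_div_assoc, le_div_iff₀ (by linarith)]
            nlinarith [pow_pos hη 3, pow_pos hη 4]
          linarith
        have := mul_le_mul_of_nonneg_right h6 hμ
        linarith

/-- Upper bound for the lower tail. -/
theorem tail_down {W : Finset ℕ} (hW : ∀ n ∈ W, 3 ≤ n) {η : ℝ} (hη : 0 < η) (hη1 : η < 1) :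
    ∑ T ∈ W.powerset with (T.card : ℝ) < (1 - η) * mu W, cramerOn W T ≤ Real.exp (-(η ^ 2 / 2 * mu W)) := by
  obtain ⟨m, hm⟩ : ∃ m : ℕ, m = ⌊(1 - η) * mu W⌋₊ := ⟨_, rfl⟩
  have hμ := mu_nonneg (W := W)
  have hpos : 0 ≤ (1 - η) * mu W := mul_nonneg (by linarith) hμ
  have h1 := lower_tail hW (show 0 < 1 - η by linarith) (by linarith) m
  have h2 : ∑ T ∈ W.powerset with (T.card : ℝ) < (1 - η) * mu W, cramerOn W T ≤
      ∑ T ∈ W.powerset with T.card ≤ m, cramerOn W T := by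
    refine sum_le_sum_of_subset_of_nonneg ?_ ?_
    · intro T hT
      rw [mem_filter] at hT ⊢
      refine ⟨hT.1, ?_⟩
      rw [hm]
      exact Nat.le_floor hT.2.le
    · intro T hT _
      rw [mem_filter, mem_powerset] at hT
      exact cramerOn_nonneg hW hT.1
  refine h2.trans (h1.trans ?_)
  have h3 : (1 / (1 - η)) ^ m ≤ Real.exp (-((1 - η) * mu W * Real.log (1 - η))) := by
    have h4 : (m : ℝ) ≤ (1 - η) * mu W := by rw [hm]; exact Nat.floor_le hpos
    have h5 : 1 / (1 - η) = Real.exp (-Real.log (1 - η)) := by rw [Real.exp_neg, Real.exp_log (by linarith), one_div]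
    rw [h5, ← Real.exp_nat_mul, Real.exp_le_exp]
    have h7 : Real.log (1 - η) < 0 := Real.log_neg (by linarith) (by linarith)
    nlinarith
  have h4 : Real.exp (-((1 - (1 - η)) * ∑ n ∈ W, 1 / Real.log (n : ℝ))) = Real.exp (-(η * mu W)) := by
    congr 1
    unfold mu
    ring
  rw [h4]
  calc (1 / (1 - η)) ^ m * Real.exp (-(η * mu W)) ≤
        Real.exp (-((1 - η) * mu W * Real.log (1 - η))) * Real.exp (-(η * mu W)) :=
        mul_le_mul_of_nonneg_right h3 (Real.exp_pos _).le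
    _ = Real.exp (-(((1 - η) * Real.log (1 - η) + η) * mu W)) := by
        rw [← Real.exp_add]
        congr 1
        ring
    _ ≤ Real.exp (-(η ^ 2 / 2 * mu W)) := by
        rw [Real.exp_le_exp]
        have := mul_le_mul_of_nonneg_right (sinh_down hη.le hη1) hμ
        linarith

end Pool.Agent.Q120.TD
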